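import Pool.Agent.W128.VA.Stm

/-! Part VA-AUT of project VA (helper128, MP_11a9fb_al): the automorphism group is trivial. -/

set_option autoImplicit false

namespace Pool.Agent.W418.VA.Aut

open Pool.Agent.W128.VA

theorem eop_one (σ s : ℤ) : eop σ s 1 = PZ σ s := by
  rw [eop_apply, map_one, ← Polynomial.C_1, Polynomial.sum_C_index]
  · simp
  · simp

theorem D_one : D 1 = 0 := by simp [D]

theorem T0_h : T0 (Finsupp.single 0 (MvPolynomial.X 0)) =
    Finsupp.single (0 : ℤ) (MvPolynomial.X 1 : R0) := by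
  rw [T0_single, D_X]
  simp

theorem T0_e : T0 (Finsupp.single 1 1) = Finsupp.single (1 : ℤ) (MvPolynomial.X 0 : R0) := by
  rw [T0_single, D_one]
  simp

theorem T0_q : T0 (Finsupp.single 1 (MvPolynomial.X 0)) =
    Finsupp.single (1 : ℤ) (MvPolynomial.X 1 + MvPolynomial.X 0 ^ 2 : R0) := by
  rw [T0_single, D_X]
  simp [pow_two]

theorem hop_h : hop (-1) (Finsupp.single 0 (MvPolynomial.X 0)) =
    Finsupp.single (0 : ℤ) (MvPolynomial.X 0 ^ 2 : R0) := by
  rw [hop_single]
  simp [hR, pow_two]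

theorem hop_q : hop 1 (Finsupp.single 1 (MvPolynomial.X 0)) =
    (2 : ℂ) • Finsupp.single (1 : ℤ) (1 : R0) := by
  rw [hop_single]
  simp [hR]

theorem om_eq : om0 = (1 / 4 : ℂ) • hop (-1) (Finsupp.single 0 (MvPolynomial.X 0)) +
    (1 / 2 : ℂ) • T0 (Finsupp.single 0 (MvPolynomial.X 0)) +
      T0 (T0 (Finsupp.single 1 1)) := by
  rw [T0_e, T0_q, T0_h, hop_h, om0]
  simp [Finsupp.single_add]

theorem e_ne : (Finsupp.single (1 : ℤ) (1 : R0)) ≠ 0 := by
  intro h
  have := DFunLike.congr_fun h 1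
  simp at this

theorem Te_ne : T0 (T0 (Finsupp.single 1 1)) ≠ 0 := by
  rw [T0_e, T0_q]
  intro h
  have h1 := DFunLike.congr_fun h 1
  rw [Finsupp.single_eq_same, Finsupp.coe_zero, Pi.zero_apply] at h1
  have h2 := congrArg (MvPolynomial.eval fun _ => (1 : ℂ)) h1
  simp at h2

theorem main : S_OM01 → S_GR → S_SMALL → S_OPE → S_GEN → S_AUT := by
  intro hOM hGR hSM hOPE hGEN F g hg ho
  obtain ⟨hT, hL⟩ := hOM F
  obtain ⟨-, -, -, hgr⟩ := hGR
  obtain ⟨s0, s1, s2, s3, -, s4, s5, s6⟩ := hSM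
  obtain ⟨⟨oh0, oh1, -⟩, ⟨oe0, -⟩, ⟨of0, -⟩, ⟨-, oef, -⟩, -, -, oee, oeh⟩ := hOPE
  have hgr' := hgr (F.Y om0 1) hL
  -- (1)
  have g1 : g vac1 = vac1 := by
    have h1 := hg vac1 (-1) (g.symm vac1)
    rw [F.vac, if_pos rfl, g.apply_symm_apply, F.create] at h1
    exact h1.symm
  -- (2)
  have gT : ∀ v, g (T0 v) = T0 (g v) := fun v => by
    rw [← hT, hg, ho, hT]
  have gG : ∀ (n : ℤ) (v : V0), v ∈ gr0 n → g v ∈ gr0 n := fun n v hv => by
    rw [hgr' n] at hv ⊢
    have := hg om0 1 v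
    rw [ho, hv, map_smul] at this
    exact this.symm
  -- (3)
  obtain ⟨t, ht⟩ : ∃ t : ℂ, g (Finsupp.single 1 1) = t • Finsupp.single (1 : ℤ) (1 : R0) := by
    obtain ⟨a, t, h1⟩ := s4 _ (gG 0 _ s1)
    have h2 := hg (Finsupp.single 1 1) (-1) (Finsupp.single 1 1)
    rw [F.Ye, oee, map_zero, h1] at h2
    simp only [map_add, map_smul, Pi.add_apply, Pi.smul_apply, LinearMap.add_apply,
      LinearMap.smul_apply, F.vac, F.create, F.Ye, oee, if_true, smul_zero] at h2
    have h3 := DFunLike.congr_fun h2 0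
    simp [vac1] at h3
    have h4 := congrArg (MvPolynomial.eval fun _ => (1 : ℂ)) h3
    simp at h4
    refine ⟨t, ?_⟩
    rw [h1, h4, zero_smul, zero_add]
  have ht0 : t ≠ 0 := by
    rintro rfl
    rw [zero_smul] at ht
    exact e_ne (g.injective (ht.trans (map_zero g).symm))
  -- modes of `q = T0 e`
  have Yq : ∀ n : ℤ, F.Y (Finsupp.single 1 (MvPolynomial.X 0)) n = (-(n : ℂ)) • eV 1 (n - 1) := by
    intro n
    rw [← T0_e, F.Tder, F.Ye]
  have eq0 : eV 1 0 (Finsupp.single 1 (MvPolynomial.X 0)) = 0 := by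
    have h1 := F.tcov (Finsupp.single 1 1) 0 (Finsupp.single 1 1)
    rw [F.Ye, T0_e, Int.cast_zero, neg_zero, zero_smul, eV_single, eop_one] at h1
    have h2 : PZ 1 (-0 - 1 - 2 * 1 * 1) = 0 := by
      rw [PZ, if_neg (by norm_num)]
    rw [h2, Finsupp.single_zero, map_zero, zero_sub, neg_eq_zero] at h1
    exact h1
  -- (4), (5)
  have gh : g (Finsupp.single 0 (MvPolynomial.X 0)) = Finsupp.single 0 (MvPolynomial.X 0) := by
    obtain ⟨u, v, h1⟩ := s5 _ (gG 1 _ s2)
    have h2 := hg (Finsupp.single 0 (MvPolynomial.X 0)) 0 (Finsupp.single 1 1)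
    rw [F.Yh, oe0, h1, map_smul, ht] at h2
    simp only [map_add, map_smul, Pi.add_apply, Pi.smul_apply, LinearMap.add_apply,
      LinearMap.smul_apply, F.Yh, oe0, Yq, Int.cast_zero, neg_zero, zero_smul, smul_zero,
      add_zero] at h2
    have h3 := DFunLike.congr_fun h2 1
    have hu : u = 1 := by
      simp only [Finsupp.smul_apply, Finsupp.single_eq_same] at h3
      have h4 := congrArg (MvPolynomial.eval fun _ => (1 : ℂ)) h3
      simp at h4
      have h5 : (2 : ℂ) * t ≠ 0 := mul_ne_zero two_ne_zero ht0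
      have h6 : (u - 1) * (2 * t) = 0 := by linear_combination -h4
      rcases mul_eq_zero.1 h6 with h7 | h7
      · exact sub_eq_zero.1 h7
      · exact absurd h7 h5
    subst hu
    rw [one_smul] at h1
    have h5 := hg (Finsupp.single 0 (MvPolynomial.X 0)) 1 (Finsupp.single 0 (MvPolynomial.X 0))
    rw [F.Yh, oh1, map_smul, g1, h1] at h5
    simp only [map_add, map_smul, Pi.add_apply, Pi.smul_apply, LinearMap.add_apply,
      LinearMap.smul_apply, F.Yh, oh1, Yq, hop_q, Int.cast_one, sub_self, oeh, eq0,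
      smul_zero, add_zero] at h5
    have h6 := DFunLike.congr_fun h5 1
    have h7 := congrArg (MvPolynomial.eval fun _ => (1 : ℂ)) h6
    simp [vac1] at h7
    have hv : v = 0 := by linear_combination (-1 / 4 : ℂ) * h7
    rw [h1, hv, zero_smul, add_zero]
  -- (6)
  have ht1 : t = 1 := by
    have h1 := ho
    rw [om_eq, map_add, map_add, map_smul, map_smul, gT, gT, gT, gh, ht] at h1
    have h2 : g (hop (-1) (Finsupp.single 0 (MvPolynomial.X 0))) =
        hop (-1) (Finsupp.single 0 (MvPolynomial.X 0)) := by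
      have := hg (Finsupp.single 0 (MvPolynomial.X 0)) (-1) (Finsupp.single 0 (MvPolynomial.X 0))
      rwa [gh, F.Yh] at this
    rw [h2, map_smul, map_smul] at h1
    have h3 := add_left_cancel h1
    have h4 : (t - 1) • T0 (T0 (Finsupp.single 1 1)) = 0 := by
      rw [sub_smul, one_smul, h3, sub_self]
    rcases smul_eq_zero.1 h4 with h5 | h5
    · exact sub_eq_zero.1 h5
    · exact absurd h5 Te_ne
  have ge : g (Finsupp.single 1 1) = Finsupp.single (1 : ℤ) (1 : R0) := by
    rw [ht, ht1, one_smul]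
  -- (7)
  have gf : g (Finsupp.single (-1) 1) = Finsupp.single (-1 : ℤ) (1 : R0) := by
    have h1 : hop 0 (g (Finsupp.single (-1) 1)) = (-2 : ℂ) • g (Finsupp.single (-1) 1) := by
      have := hg (Finsupp.single 0 (MvPolynomial.X 0)) 0 (Finsupp.single (-1) 1)
      rw [gh, F.Yh, of0, map_smul] at this
      exact this.symm
    obtain ⟨s, hs⟩ := s6 _ (gG 2 _ s3) h1
    have h2 := hg (Finsupp.single 1 1) 1 (Finsupp.single (-1) 1)
    rw [ge, F.Ye, oef, g1, hs, map_smul, oef] at h2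
    have h3 := DFunLike.congr_fun h2 0
    have h4 := congrArg (MvPolynomial.eval fun _ => (1 : ℂ)) h3
    simp [vac1] at h4
    rw [hs, ← h4, one_smul]
  -- (8)
  have hU := hGEN (LinearMap.ker ((g : V0 →ₗ[ℂ] V0) - LinearMap.id)) ?_ ?_ ?_ ?_
  · intro v
    have hv : v ∈ LinearMap.ker ((g : V0 →ₗ[ℂ] V0) - LinearMap.id) := by
      rw [hU]; trivial
    simpa [sub_eq_zero] using hv
  · simp [g1]
  · intro n v hv
    have hv' : g v = v := by simpa [sub_eq_zero] using hv
    have := hg (Finsupp.single 0 (MvPolynomial.X 0)) n v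
    rw [gh, F.Yh, hv'] at this
    simp [this]
  · intro n v hv
    have hv' : g v = v := by simpa [sub_eq_zero] using hv
    have := hg (Finsupp.single 1 1) n v
    rw [ge, F.Ye, hv'] at this
    simpa [sub_eq_zero] using this
  · intro n v hv
    have hv' : g v = v := by simpa [sub_eq_zero] using hv
    have := hg (Finsupp.single (-1) 1) n v
    rw [gf, F.Yf, hv'] at this
    simpa [sub_eq_zero] using this

end Pool.Agent.W418.VA.Aut
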